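import Pool.Agent.Y161.FSP.Part

/-!
# Triconnected cubic planar graphs are partitioned into twelve free sets

The vertex set of every triconnected cubic planar graph has a partition into at most twelve classes
such that every set of vertices contained in one class is a free set. So every set `X` of vertices
contains a free set with at least `|X| / 12` elements, which answers Q1.
-/

set_option autoImplicit false

namespace Pool.Agent.Results.MP_ca05b3_co.PartitionIntoFreeSets

/-- `p` is a straight-line crossing-free drawing of `G`: distinct vertices are distinct points, no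
vertex lies on the closed segment of an edge except its two ends, and the segments of two different
edges meet only in a common end vertex. -/
def Drawing {V : Type} (G : SimpleGraph V) (p : V → ℝ × ℝ) : Prop :=
  Function.Injective p ∧
    (∀ u v w : V, G.Adj u v → w ≠ u → w ≠ v → p w ∉ segment ℝ (p u) (p v)) ∧
    (∀ u v x y : V, G.Adj u v → G.Adj x y → s(u, v) ≠ s(x, y) →
      ∀ z ∈ segment ℝ (p u) (p v), z ∈ segment ℝ (p x) (p y) →
        ∃ w : V, (w = u ∨ w = v) ∧ (w = x ∨ w = y) ∧ z = p w)

/-- `G` is planar (it has a straight-line crossing-free drawing) -/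
def Planar {V : Type} (G : SimpleGraph V) : Prop := ∃ p : V → ℝ × ℝ, Drawing G p

/-- every vertex has degree three -/
def Cubic {V : Type} (G : SimpleGraph V) : Prop := ∀ v, Set.ncard {x | G.Adj v x} = 3

/-- at least four vertices, and connected after deleting any two vertices -/
def Triconnected {V : Type} [Fintype V] (G : SimpleGraph V) : Prop :=
  4 ≤ Fintype.card V ∧ ∀ x y : V, x ≠ y → (G.induce ({x, y}ᶜ : Set V)).Connected

/-- `S` is a free set of `G`: its elements can be listed as `v 0, …, v (s-1)` (each once) such that for
all reals `x 0 < … < x (s-1)` and all reals `y 0, …, y (s-1)` there is a straight-line crossing-free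
drawing of `G` that places `v i` at `(x i, y i)` for every `i`. -/
def IsFreeSet {V : Type} (G : SimpleGraph V) (S : Finset V) : Prop :=
  ∃ v : Fin S.card → V, Function.Injective v ∧ (∀ a, a ∈ S ↔ ∃ i, v i = a) ∧
    ∀ x y : Fin S.card → ℝ, StrictMono x →
      ∃ p : V → ℝ × ℝ, Drawing G p ∧ ∀ i, p (v i) = (x i, y i)

/-- **Partition into free sets.** The vertices of every triconnected cubic planar graph can be
coloured with twelve colours so that every monochromatic set of vertices is a free set. Consequently
every set `X` of vertices contains a free set `S` with `|S| ≥ |X| / 12` (Q1 with `c = 1 / 12`). -/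
theorem result : ∀ (V : Type) [Fintype V] (G : SimpleGraph V),
    Planar G → Cubic G → Triconnected G →
      (∃ f : V → Fin 12, ∀ S : Finset V, (∀ v ∈ S, ∀ w ∈ S, f v = f w) → IsFreeSet G S) ∧
      ∀ X : Finset V, ∃ S : Finset V, S ⊆ X ∧ IsFreeSet G S ∧ 1 / 12 * (X.card : ℝ) ≤ S.card := by
  classical
  intro V _ G hP hC hT
  obtain ⟨f, hf⟩ := Pool.Agent.Y161.FSP.part G hP hC hT.1 hT.2
  have hf' : ∀ S : Finset V, (∀ v ∈ S, ∀ w ∈ S, f v = f w) → IsFreeSet G S := hf
  refine ⟨⟨f, hf'⟩, fun X => ?_⟩
  obtain ⟨a, -, ha⟩ := Finset.exists_max_image (Finset.univ : Finset (Fin 12))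
    (fun a => (X.filter fun v => f v = a).card) Finset.univ_nonempty
  refine ⟨X.filter fun v => f v = a, Finset.filter_subset _ _, hf' _ ?_, ?_⟩
  · intro v hv w hw
    rw [(Finset.mem_filter.1 hv).2, (Finset.mem_filter.1 hw).2]
  · have h1 : X.card = ∑ b : Fin 12, (X.filter fun v => f v = b).card :=
      Finset.card_eq_sum_card_fiberwise (fun v _ => Finset.mem_coe.2 (Finset.mem_univ (f v)))
    have h2 : X.card ≤ 12 * (X.filter fun v => f v = a).card := by
      rw [h1]
      refine (Finset.sum_le_card_nsmul _ _ _ fun b hb => ha b hb).trans ?_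
      rw [Finset.card_univ, Fintype.card_fin, smul_eq_mul]
    have h3 : (X.card : ℝ) ≤ 12 * ((X.filter fun v => f v = a).card : ℝ) := by exact_mod_cast h2
    linarith

end Pool.Agent.Results.MP_ca05b3_co.PartitionIntoFreeSets
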